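import Pool.Agent.N699.AO.Stm

/-!
# Project AO (helper699), leaf FINIA: all integers up to `X`
-/

set_option autoImplicit false

namespace Pool.Agent.N698.AO

open Finset
open Pool.Agent.N699.AO

theorem t_FINIA : FINIA := by
  classical
  intro hS hQ ε hε
  obtain ⟨δ1, hδ1, A1, hA1, k0, M0, hS⟩ := hS ε hε
  obtain ⟨s, hsdef⟩ : ∃ s : ℝ, s = Real.sqrt (ε / 8 / 9900) := ⟨_, rfl⟩
  have hs : 0 < s := by rw [hsdef]; exact Real.sqrt_pos.2 (by positivity)
  have hs2 : s ^ 2 = ε / 8 / 9900 := by rw [hsdef]; exact Real.sq_sqrt (by positivity)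
  refine ⟨δ1 * s / 2 ^ (k0 + 1), by positivity, A1 * 2 ^ (k0 + 1) / s, by positivity,
    ⌈((M0 + 500 : ℝ) / s) ^ 2⌉₊ + ⌈8 / (3 * ε)⌉₊ + 1, ?_⟩
  intro X hX B hB hAB
  have hXr : ((⌈((M0 + 500 : ℝ) / s) ^ 2⌉₊ : ℕ) : ℝ) + ((⌈8 / (3 * ε)⌉₊ : ℕ) : ℝ) + 1 ≤ X := by
    exact_mod_cast hX
  have hc1 := Nat.le_ceil (((M0 + 500 : ℝ) / s) ^ 2)
  have hc2 := Nat.le_ceil (8 / (3 * ε))
  have hn1 : (0 : ℝ) ≤ ((⌈((M0 + 500 : ℝ) / s) ^ 2⌉₊ : ℕ) : ℝ) := Nat.cast_nonneg _
  have hn2 : (0 : ℝ) ≤ ((⌈8 / (3 * ε)⌉₊ : ℕ) : ℝ) := Nat.cast_nonneg _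
  have hX1 : ((M0 + 500 : ℝ) / s) ^ 2 ≤ X := by linarith
  have hX2 : 8 / (3 * ε) ≤ X := by linarith
  have hX3 : (1 : ℝ) ≤ X := by linarith
  have hX4 : 1 ≤ 3 * ε / 8 * X := by
    rw [div_le_iff₀ (by positivity)] at hX2
    linarith
  have hsqX : Real.sqrt X ^ 2 = X := Real.sq_sqrt (by linarith)
  have hsqX0 : 0 < Real.sqrt X := Real.sqrt_pos.2 (by linarith)
  have hsX : (M0 + 500 : ℝ) ≤ s * Real.sqrt X := by
    have h1 : (M0 + 500 : ℝ) / s ≤ Real.sqrt X := Real.le_sqrt_of_sq_le hX1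
    rw [div_le_iff₀ hs] at h1
    linarith
  obtain ⟨j, hj1, hj2⟩ := exists_nat_pow_near hB (one_lt_two)
  obtain ⟨k, hk⟩ : ∃ k, k = k0 + j + 1 := ⟨_, rfl⟩
  have hB0 : 0 < B := by linarith
  have hk1 : (2 : ℝ) ^ k ≤ 2 ^ (k0 + 1) * B := by
    have h1 : (2 : ℝ) ^ k = 2 ^ (k0 + 1) * 2 ^ j := by rw [hk]; ring
    rw [h1]
    exact mul_le_mul_of_nonneg_left hj1 (by positivity)
  have hk2 : B ≤ 2 ^ (k + 3) := by
    refine hj2.le.trans ?_
    exact pow_le_pow_right₀ (by norm_num) (by omega)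
  obtain ⟨bad, hbad⟩ : ∃ bad : ℕ → Prop, bad = fun ν => ((quads B (2 * ν + 1)).ncard : ℝ) <
    δ1 * s / 2 ^ (k0 + 1) * (Real.sqrt X / B) := ⟨_, rfl⟩
  have key : ∀ Z : ℕ, 2 * Z ≤ X →
      (((range (Z + 1)).filter bad).card : ℝ) ≤ ε / 8 * X + 1 + ε * Z := by
    intro Z
    induction Z using Nat.strong_induction_on with
    | _ Z ih =>
      intro hZX
      have hZ0 : (0 : ℝ) ≤ Z := Nat.cast_nonneg _
      by_cases hZ : (Z : ℝ) ≤ ε / 8 * X
      · have h1 : ((range (Z + 1)).filter bad).card ≤ Z + 1 := by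
          refine (card_filter_le _ _).trans ?_
          rw [card_range]
        have h2 : (((range (Z + 1)).filter bad).card : ℝ) ≤ Z + 1 := by exact_mod_cast h1
        have h3 : 0 ≤ ε * (Z : ℝ) := by positivity
        linarith
      · rw [not_le] at hZ
        have hex : ∃ M : ℕ, Z ≤ 9900 * M ^ 2 := by
          refine ⟨Z, ?_⟩
          rcases Nat.eq_zero_or_pos Z with h | h
          · rw [h]
            norm_num
          · have h1 : Z * 1 ≤ Z * Z := Nat.mul_le_mul_left Z h
            have h2 : Z ^ 2 = Z * Z := sq Z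
            omega
        obtain ⟨M, hM1, hM2⟩ : ∃ M : ℕ, Z ≤ 9900 * M ^ 2 ∧ ∀ m < M, 9900 * m ^ 2 < Z :=
          ⟨Nat.find hex, Nat.find_spec hex, fun m hm => not_le.1 (Nat.find_min hex hm)⟩
        have hM1r : (Z : ℝ) ≤ 9900 * (M : ℝ) ^ 2 := by exact_mod_cast hM1
        have hMs : s * Real.sqrt X ≤ M := by
          rw [← pow_le_pow_iff_left₀ (by positivity) (Nat.cast_nonneg _) two_ne_zero, mul_pow,
            hs2, hsqX]
          linarith
        have hM500 : (M0 + 500 : ℝ) ≤ M := hsX.trans hMs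
        have hM500' : M0 + 500 ≤ M := by exact_mod_cast hM500
        have hMlt := hM2 (M - 1) (by omega)
        obtain ⟨m, hm⟩ : ∃ m, M = m + 1 := ⟨M - 1, by omega⟩
        rw [hm, Nat.add_sub_cancel] at hMlt
        have hMlt' : 9900 * (m : ℝ) ^ 2 < Z := by exact_mod_cast hMlt
        have hmr : (M : ℝ) = m + 1 := by rw [hm]; push_cast; ring
        have hm0 : (0 : ℝ) ≤ M0 := Nat.cast_nonneg _
        have hm499 : (499 : ℝ) ≤ m := by linarith
        have hmm : 499 * (m : ℝ) ≤ (m : ℝ) ^ 2 := by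
          rw [sq]
          exact mul_le_mul_of_nonneg_right hm499 (by linarith)
        have h995 : 9800 * (M : ℝ) ^ 2 ≤ 0.995 * Z := by
          have e : ((m : ℝ) + 1) ^ 2 = (m : ℝ) ^ 2 + 2 * m + 1 := by ring
          rw [hmr, e]
          linarith
        have hZpos : (0 : ℝ) < Z := lt_of_le_of_lt (by positivity) hZ
        have hlt : 9800 * M ^ 2 < Z := by
          have : 9800 * (M : ℝ) ^ 2 < Z := by linarith
          exact_mod_cast this
        have hMX : M ≤ X := by
          have h1 : m ≤ m ^ 2 := by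
            have h499 : 499 ≤ m := by exact_mod_cast hm499
            nlinarith
          omega
        have ih' := ih (9800 * M ^ 2) hlt (by omega)
        have hM1' : (1 : ℝ) ≤ M := by linarith
        have hlog : Real.log M ^ 2 ≤ Real.log X ^ 2 := by
          refine pow_le_pow_left₀ (Real.log_nonneg hM1') ?_ 2
          exact Real.log_le_log (by linarith) (by exact_mod_cast hMX)
        have hcond : A1 * (2 : ℝ) ^ k * (Real.log M) ^ 2 ≤ M := by
          have h1 : A1 * (2 : ℝ) ^ k * (Real.log M) ^ 2 ≤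
              A1 * (2 ^ (k0 + 1) * B) * (Real.log X) ^ 2 :=
            mul_le_mul (mul_le_mul_of_nonneg_left hk1 hA1.le) hlog (sq_nonneg _) (by positivity)
          have h2 : A1 * (2 ^ (k0 + 1) * B) * (Real.log X) ^ 2 ≤ s * Real.sqrt X := by
            have h3 := mul_le_mul_of_nonneg_left hAB hs.le
            have h4 : s * (A1 * 2 ^ (k0 + 1) / s * B * Real.log X ^ 2) =
                A1 * (2 ^ (k0 + 1) * B) * (Real.log X) ^ 2 := by
              field_simp
            linarith
          linarith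
        have hscale := hS k M (by omega) (by omega) hcond
        have hthr : δ1 * s / 2 ^ (k0 + 1) * (Real.sqrt X / B) ≤ δ1 * (M / 2 ^ k) := by
          have h1 : δ1 * s / 2 ^ (k0 + 1) * (Real.sqrt X / B) =
              δ1 * ((s * Real.sqrt X) / (2 ^ (k0 + 1) * B)) := by
            field_simp
          rw [h1]
          refine mul_le_mul_of_nonneg_left ?_ hδ1.le
          exact div_le_div₀ (by linarith) hMs (by positivity) hk1
        have hcount : ((range (Z + 1)).filter bad).card ≤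
            ((range (9800 * M ^ 2 + 1)).filter bad).card +
            ((Ioc (9800 * (M : ℤ) ^ 2) (9900 * (M : ℤ) ^ 2)).filter
              (fun ν => (rr k M ν : ℝ) < δ1 * (M / 2 ^ k))).card := by
          have h1 : ((Ioc (9800 * M ^ 2) Z).filter bad).card ≤
              ((Ioc (9800 * (M : ℤ) ^ 2) (9900 * (M : ℤ) ^ 2)).filter
              (fun ν => (rr k M ν : ℝ) < δ1 * (M / 2 ^ k))).card := by
            refine card_le_card_of_injOn (fun ν : ℕ => (ν : ℤ)) ?_ ?_
            · intro ν hν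
              rw [mem_coe, mem_filter, mem_Ioc] at hν
              obtain ⟨⟨h2, h3⟩, h4⟩ := hν
              rw [mem_coe, mem_filter, mem_Ioc]
              refine ⟨⟨?_, ?_⟩, ?_⟩
              · show (9800 * (M : ℤ) ^ 2) < (ν : ℤ)
                exact_mod_cast h2
              · show (ν : ℤ) ≤ 9900 * (M : ℤ) ^ 2
                exact_mod_cast h3.trans hM1
              rw [hbad] at h4
              have h5 := hQ k M (2 * ν + 1) B (by omega) hk2 (ν : ℤ) (by push_cast; ring)
              have h6 : (rr k M (ν : ℤ) : ℝ) ≤ ((quads B (2 * ν + 1)).ncard : ℝ) := by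
                exact_mod_cast h5
              exact lt_of_le_of_lt h6 (lt_of_lt_of_le h4 hthr)
            · intro a _ b _ hab
              have hab' : (a : ℤ) = (b : ℤ) := hab
              exact_mod_cast hab'
          refine le_trans ?_ (Nat.add_le_add_left h1 _)
          refine le_trans (card_le_card ?_) (card_union_le _ _)
          intro ν hν
          rw [mem_filter, mem_range] at hν
          rw [mem_union, mem_filter, mem_filter, mem_range, mem_Ioc]
          by_cases h2 : ν < 9800 * M ^ 2 + 1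
          · exact Or.inl ⟨h2, hν.2⟩
          · exact Or.inr ⟨⟨by omega, by omega⟩, hν.2⟩
        have hcount' : (((range (Z + 1)).filter bad).card : ℝ) ≤
            ((range (9800 * M ^ 2 + 1)).filter bad).card +
            ((Ioc (9800 * (M : ℤ) ^ 2) (9900 * (M : ℤ) ^ 2)).filter
              (fun ν => (rr k M ν : ℝ) < δ1 * (M / 2 ^ k))).card := by
          exact_mod_cast hcount
        have ih'' : (((range (9800 * M ^ 2 + 1)).filter bad).card : ℝ) ≤
            ε / 8 * X + 1 + ε * (9800 * (M : ℝ) ^ 2) := by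
          have : ((9800 * M ^ 2 : ℕ) : ℝ) = 9800 * (M : ℝ) ^ 2 := by push_cast; ring
          rw [← this]
          exact ih'
        have h7 : ε * (9800 * (M : ℝ) ^ 2) + ε * (M : ℝ) ^ 2 ≤ ε * Z := by
          rw [← mul_add]
          refine mul_le_mul_of_nonneg_left ?_ hε.le
          linarith [sq_nonneg (M : ℝ)]
        linarith
  -- all odd numbers
  have hfin : ((range (X + 1)).filter (fun n => Odd n ∧ ((quads B n).ncard : ℝ) <
      δ1 * s / 2 ^ (k0 + 1) * (Real.sqrt X / B))).card ≤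
      ((range (X / 2 + 1)).filter bad).card := by
    refine card_le_card_of_injOn (fun n => n / 2) ?_ ?_
    · intro n hn
      rw [mem_coe, mem_filter, mem_range] at hn
      obtain ⟨h1, ⟨c, hc⟩, h3⟩ := hn
      rw [mem_coe, mem_filter, mem_range, hbad]
      have h4 : n / 2 = c := by omega
      refine ⟨by show n / 2 < X / 2 + 1; omega, ?_⟩
      show ((quads B (2 * (n / 2) + 1)).ncard : ℝ) < _
      rw [h4, ← hc]
      exact h3
    · intro a ha b hb hab
      rw [mem_coe, mem_filter] at ha hb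
      obtain ⟨-, ⟨c, hc⟩, -⟩ := ha
      obtain ⟨-, ⟨d, hd⟩, -⟩ := hb
      have hab' : a / 2 = b / 2 := hab
      omega
  have hkey := key (X / 2) (by omega)
  have hhalf : ((X / 2 : ℕ) : ℝ) ≤ X / 2 := Nat.cast_div_le
  have hfin' : (((range (X + 1)).filter (fun n => Odd n ∧ ((quads B n).ncard : ℝ) <
      δ1 * s / 2 ^ (k0 + 1) * (Real.sqrt X / B))).card : ℝ) ≤
      ((range (X / 2 + 1)).filter bad).card := by exact_mod_cast hfin
  have h8 : ε * ((X / 2 : ℕ) : ℝ) ≤ ε * (X / 2) := mul_le_mul_of_nonneg_left hhalf hε.le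
  linarith

end Pool.Agent.N698.AO
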